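import Pool.Agent.Lib_MP_62fa17_nt.Basic

/-!
# MP_62fa17_nt, question Q1: `A_n = 2 ^ n` for every `n > 1`
-/

namespace Pool.Agent.Results.MP_62fa17_nt.Q1

open Finset Pool.Agent.Lib_MP_62fa17_nt

/-- The numbers `a_1 = 1` and `a_i = 2 i - 3` for `i ≥ 2`. -/
def a (i : ℕ) : ℚ := if i = 1 then 1 else 2 * (i : ℚ) - 3

/-- The weight `u(λ) = ∏_{i=1}^n (a_i / i) ^ λ_i`. -/
def u {n : ℕ} (l : Fin n → ℕ) : ℚ := ∏ i ∈ Finset.Icc 1 n, (a i / (i : ℚ)) ^ (part l i)

/-- `A_n`, the sum over `λ ∈ Λ_n` of `(1 + λ_1) C(λ) u(λ)`. -/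
def A (n : ℕ) : ℚ := ∑ l ∈ Lam n, (1 + (part l 1 : ℚ)) * (C l : ℚ) * u l

/-- the series `F = 1 - W` has `F_{m+1} (m+1) = (2 m - 1) F_m` -/
theorem F_rec (m : ℕ) :
    ((m : ℚ) + 1) * PowerSeries.coeff (m + 1) (1 - W (fun i => a i / (i : ℚ)) 1) =
      (2 * m + (-1)) * PowerSeries.coeff m (1 - W (fun i => a i / (i : ℚ)) 1) := by
  simp only [map_sub, PowerSeries.coeff_one, W, PowerSeries.coeff_mk]
  cases m with
  | zero => simp [a]
  | succ m =>
    rw [if_neg (by omega), if_neg (by omega), if_neg (by omega), if_neg (by omega),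
      Finset.prod_range_succ _ (m + 1)]
    have h1 : a (1 + (m + 1)) = 2 * (m : ℚ) + 1 := by
      unfold a
      rw [if_neg (by omega)]
      push_cast
      ring
    rw [h1]
    have h2 : ((m : ℚ) + 1 + 1) ≠ 0 := by positivity
    push_cast
    have h3 : (1 + ((m : ℚ) + 1)) = (m : ℚ) + 1 + 1 := by ring
    rw [h3]
    field_simp
    ring

theorem F_sq : (1 - W (fun i => a i / (i : ℚ)) 1) ^ 2 = 1 - 2 * PowerSeries.X := by
  have hrec := sq_coeff _ _ F_rec
  have h0 : PowerSeries.coeff 0 ((1 - W (fun i => a i / (i : ℚ)) 1) ^ 2) = 1 := by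
    rw [PowerSeries.coeff_zero_eq_constantCoeff_apply, map_pow, map_sub]
    simp [W]
  have h2 : (2 : PowerSeries ℚ) = PowerSeries.C 2 := (map_ofNat _ 2).symm
  have h1 : PowerSeries.coeff 1 ((1 - W (fun i => a i / (i : ℚ)) 1) ^ 2) = -2 := by
    have := hrec 0
    rw [h0] at this
    push_cast at this
    simp only [zero_add] at this
    linarith
  have hge : ∀ m : ℕ, PowerSeries.coeff (m + 2) ((1 - W (fun i => a i / (i : ℚ)) 1) ^ 2) = 0 := by
    intro m
    induction m with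
    | zero =>
      have := hrec 1
      push_cast at this
      norm_num at this
      simpa using this
    | succ m ih =>
      have := hrec (m + 2)
      rw [ih, mul_zero] at this
      have hne : (((m + 2 : ℕ) : ℚ) + 1) ≠ 0 := by positivity
      exact (mul_eq_zero.mp this).resolve_left hne
  ext m
  rw [map_sub, h2, PowerSeries.coeff_C_mul, PowerSeries.coeff_one]
  rcases m with _ | _ | m
  · rw [h0]; simp
  · rw [zero_add, h1]; simp
  · rw [show m + 1 + 1 = m + 2 by ring, hge, PowerSeries.coeff_X]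
    simp

/-- Question Q1: `A_n = 2 ^ n` for every integer `n > 1`. -/
theorem result : ∀ n : ℕ, 1 < n → A n = 2 ^ n := by
  intro n hn
  have h1 := sum_Lam (fun i => a i / (i : ℚ)) (fun k => 1 + (k : ℚ)) n (by omega)
  have h2 : A n = ∑ l ∈ Lam n, (1 + ((part l 1 : ℕ) : ℚ)) * (C l : ℚ) *
      weight (fun i => a i / (i : ℚ)) l := rfl
  rw [h2, h1]
  have hR : (1 - W (fun i => a i / (i : ℚ)) 1) ^ 2 * PowerSeries.mk (fun m => (2 : ℚ) ^ m) = 1 := by
    rw [F_sq]
    ext m
    have h2 : (2 : PowerSeries ℚ) = PowerSeries.C 2 := (map_ofNat _ 2).symm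
    rw [sub_mul, one_mul, map_sub, mul_assoc, h2, PowerSeries.coeff_C_mul]
    cases m with
    | zero => simp
    | succ m =>
      rw [PowerSeries.coeff_succ_X_mul, PowerSeries.coeff_mk, PowerSeries.coeff_mk,
        PowerSeries.coeff_one, if_neg (by omega)]
      ring
  rw [coeff_sum _ _ (by simp [W]) hR, PowerSeries.coeff_mk]

end Pool.Agent.Results.MP_62fa17_nt.Q1
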