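import Pool.Agent.Lib_MP_62fa17_nt.Basic

/-!
# MP_62fa17_nt, question Q2: `B_n = 0` for every `n > 1`
-/

namespace Pool.Agent.Results.MP_62fa17_nt.Q2

open Finset Pool.Agent.Lib_MP_62fa17_nt

/-- The weight `v(λ) = ∏_{i=1}^n ((2 i - 1) / i) ^ λ_i`. -/
def v {n : ℕ} (l : Fin n → ℕ) : ℚ :=
  ∏ i ∈ Finset.Icc 1 n, ((2 * (i : ℚ) - 1) / (i : ℚ)) ^ (part l i)

/-- `B_n`, the sum over `λ ∈ Λ_n` of `(-1) ^ (1 + λ_1) (1 + λ_1) C(λ) v(λ)`. -/
def B (n : ℕ) : ℚ :=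
  ∑ l ∈ Lam n, (-1 : ℚ) ^ (1 + part l 1) * (1 + (part l 1 : ℚ)) * (C l : ℚ) * v l

/-- the series `E = 1 + W` has `E_{m+1} (m+1) = (2 m + 1) E_m` -/
theorem E_rec (m : ℕ) :
    ((m : ℚ) + 1) *
        PowerSeries.coeff (m + 1) (1 - -W (fun i => (2 * (i : ℚ) - 1) / (i : ℚ)) 1) =
      (2 * m + 1) * PowerSeries.coeff m (1 - -W (fun i => (2 * (i : ℚ) - 1) / (i : ℚ)) 1) := by
  simp only [map_sub, map_neg, PowerSeries.coeff_one, W, PowerSeries.coeff_mk]
  cases m with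
  | zero => norm_num
  | succ m =>
    rw [if_neg (by omega), if_neg (by omega), if_neg (by omega), if_neg (by omega),
      Finset.prod_range_succ _ (m + 1)]
    have h2 : ((m : ℚ) + 1 + 1) ≠ 0 := by positivity
    push_cast
    have h3 : (1 + ((m : ℚ) + 1)) = (m : ℚ) + 1 + 1 := by ring
    rw [h3]
    field_simp
    ring

theorem E_sq : (1 - -W (fun i => (2 * (i : ℚ) - 1) / (i : ℚ)) 1) ^ 2 =
    PowerSeries.mk (fun m => (2 : ℚ) ^ m) := by
  have hrec := sq_coeff _ _ E_rec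
  ext m
  induction m with
  | zero =>
    rw [PowerSeries.coeff_zero_eq_constantCoeff_apply, map_pow, map_sub]
    simp [W]
  | succ m ih =>
    have h := hrec m
    rw [ih, PowerSeries.coeff_mk] at h
    rw [PowerSeries.coeff_mk]
    have hne : ((m : ℚ) + 1) ≠ 0 := by positivity
    apply mul_left_cancel₀ hne
    rw [h, pow_succ]
    ring

/-- Question Q2: `B_n = 0` for every integer `n > 1`. -/
theorem result : ∀ n : ℕ, 1 < n → B n = 0 := by
  intro n hn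
  have h1 := sum_Lam (fun i => (2 * (i : ℚ) - 1) / (i : ℚ))
    (fun k => (-1 : ℚ) ^ (1 + k) * (1 + (k : ℚ))) n (by omega)
  have h2 : B n = ∑ l ∈ Lam n, (-1 : ℚ) ^ (1 + part l 1) * (1 + ((part l 1 : ℕ) : ℚ)) *
      (C l : ℚ) * weight (fun i => (2 * (i : ℚ) - 1) / (i : ℚ)) l := rfl
  rw [h2, h1]
  have h3 : ∀ k : ℕ, (-1 : ℚ) ^ (1 + k) * (1 + (k : ℚ)) *
      PowerSeries.coeff n (W (fun i => (2 * (i : ℚ) - 1) / (i : ℚ)) 1 ^ k) =
      -((1 + (k : ℚ)) *
        PowerSeries.coeff n ((-W (fun i => (2 * (i : ℚ) - 1) / (i : ℚ)) 1) ^ k)) := by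
    intro k
    rcases Nat.even_or_odd k with hk | hk
    · rw [hk.neg_pow, pow_add, hk.neg_one_pow]
      ring
    · rw [hk.neg_pow, pow_add, hk.neg_one_pow, map_neg]
      ring
  simp only [h3]
  rw [Finset.sum_neg_distrib]
  have hR : (1 - -W (fun i => (2 * (i : ℚ) - 1) / (i : ℚ)) 1) ^ 2 *
      (1 - 2 * PowerSeries.X) = 1 := by
    rw [E_sq]
    ext m
    have h2 : (2 : PowerSeries ℚ) = PowerSeries.C 2 := (map_ofNat _ 2).symm
    rw [mul_comm, sub_mul, one_mul, map_sub, mul_assoc, h2, PowerSeries.coeff_C_mul]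
    cases m with
    | zero => simp
    | succ m =>
      rw [PowerSeries.coeff_succ_X_mul, PowerSeries.coeff_mk, PowerSeries.coeff_mk,
        PowerSeries.coeff_one, if_neg (by omega)]
      ring
  rw [coeff_sum _ _ (by simp [W]) hR]
  have h2 : (2 : PowerSeries ℚ) = PowerSeries.C 2 := (map_ofNat _ 2).symm
  rw [map_sub, h2, PowerSeries.coeff_C_mul, PowerSeries.coeff_one, PowerSeries.coeff_X,
    if_neg (by omega), if_neg (by omega)]
  ring

end Pool.Agent.Results.MP_62fa17_nt.Q2
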